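import Pool.Agent.Lib.MP_f44585_an.Step

set_option autoImplicit false

open Finset

namespace Pool.Agent.Lib.MP_f44585_an

lemma norm_ec_sub_ec_le (s t : ℝ) : ‖ec s - ec t‖ ≤ 2 * Real.pi * |s - t| := by
  have h1 : ec s - ec t = ec t * (ec (s - t) - 1) := by
    rw [mul_sub, ← ec_add, mul_one]
    congr 2
    ring
  rw [h1, norm_mul, norm_ec, one_mul]
  unfold ec
  rw [mul_comm _ Complex.I]
  refine Real.norm_exp_I_mul_ofReal_sub_one_le.trans ?_
  rw [Real.norm_eq_abs, abs_mul, abs_of_pos (by positivity)]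

lemma sum_pow_le {r : ℕ} (hr : 2 ≤ r) (N : ℕ) : ∑ n ∈ Finset.range N, (r : ℝ) ^ n ≤ (r : ℝ) ^ N := by
  have hr2 : (2 : ℝ) ≤ r := by exact_mod_cast hr
  induction N with
  | zero => simp
  | succ N ih =>
    rw [Finset.sum_range_succ, pow_succ]
    have : (0 : ℝ) < (r : ℝ) ^ N := by positivity
    nlinarith

/-- Perturbing `y` changes the exponential sums only a little. -/
lemma perturb {r : ℕ} (hr : 2 ≤ r) (c : ℝ) (N : ℕ) (y y' : ℝ) :
    ‖∑ n ∈ Finset.range N, ec ((c * (r : ℝ) ^ n) * y)‖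
      ≤ ‖∑ n ∈ Finset.range N, ec ((c * (r : ℝ) ^ n) * y')‖
        + 2 * Real.pi * |c| * (r : ℝ) ^ N * |y - y'| := by
  have h1 : ∑ n ∈ Finset.range N, ec ((c * (r : ℝ) ^ n) * y)
      = ∑ n ∈ Finset.range N, ec ((c * (r : ℝ) ^ n) * y')
        + ∑ n ∈ Finset.range N, (ec ((c * (r : ℝ) ^ n) * y) - ec ((c * (r : ℝ) ^ n) * y')) := by
    rw [← Finset.sum_add_distrib]
    apply Finset.sum_congr rfl
    intro n _
    ring
  rw [h1]
  refine (norm_add_le _ _).trans ?_
  gcongr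
  refine (norm_sum_le _ _).trans ?_
  calc ∑ n ∈ Finset.range N, ‖ec ((c * (r : ℝ) ^ n) * y) - ec ((c * (r : ℝ) ^ n) * y')‖
      ≤ ∑ n ∈ Finset.range N, (2 * Real.pi * |c| * |y - y'|) * (r : ℝ) ^ n := by
        apply Finset.sum_le_sum
        intro n _
        refine (norm_ec_sub_ec_le _ _).trans (le_of_eq ?_)
        rw [← mul_sub, abs_mul, abs_mul, abs_of_pos (by positivity : (0 : ℝ) < (r : ℝ) ^ n)]
        ring
    _ = (2 * Real.pi * |c| * |y - y'|) * ∑ n ∈ Finset.range N, (r : ℝ) ^ n := by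
        rw [Finset.mul_sum]
    _ ≤ (2 * Real.pi * |c| * |y - y'|) * (r : ℝ) ^ N := by
        apply mul_le_mul_of_nonneg_left (sum_pow_le hr N)
        positivity
    _ = _ := by ring

lemma exists_seq_of_rel {α : Type*} (R : ℕ → α → α → Prop) (h : ∀ k a, ∃ a', R k a a') (a0 : α) :
    ∃ f : ℕ → α, f 0 = a0 ∧ ∀ k, R k (f k) (f (k + 1)) := by
  choose g hg using h
  refine ⟨fun n => Nat.rec a0 (fun k a => g k a) n, rfl, ?_⟩
  intro k
  exact hg k _

/-- The step relation of the construction. -/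
def StepRel (r : ℕ) (b : ℝ) (k : ℕ) (a a' : Finset ℕ × ℕ × ℕ) : Prop :=
  a.1 ⊆ Finset.range a.2.1 →
    (a.2.1 < a'.2.2 ∧ a'.2.2 ≤ a'.2.1 ∧ (∃ A ⊆ pos (2 ^ k) a.2.1 a'.2.2, a'.1 = a.1 ∪ A) ∧
      ∀ h : ℤ, h ≠ 0 → |(h : ℝ)| ≤ k + 1 → ∀ y : ℝ,
        |y - ∑ i ∈ a'.1, wt r i| ≤ ((r : ℝ) ^ a'.2.1)⁻¹ →
        ‖∑ n ∈ Finset.range a'.2.2, ec (((h : ℝ) * b * (r : ℝ) ^ n) * y)‖
          ≤ (1 / ((k : ℝ) + 1)) * a'.2.2 + 1)

lemma exists_stepRel {r : ℕ} (hr : 2 ≤ r) {b : ℝ} (hb : Irrational b) (k : ℕ)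
    (a : Finset ℕ × ℕ × ℕ) : ∃ a', StepRel r b k a a' := by
  obtain ⟨T, M, N⟩ := a
  have hr1 : (1 : ℝ) < r := by exact_mod_cast (by omega : 1 < r)
  obtain ⟨N', hN', A, hA, hsum⟩ := step hr hb (s := 2 ^ k) (Nat.one_le_two_pow) (k + 1)
    (η := 1 / ((k : ℝ) + 1)) (by positivity) M (∑ i ∈ T, wt r i)
  obtain ⟨g, hg⟩ := pow_unbounded_of_one_lt (2 * Real.pi * (((k : ℝ) + 1) * |b|)) hr1
  refine ⟨(T ∪ A, N' + g, N'), ?_⟩
  intro hT
  simp only at hT ⊢
  refine ⟨hN', by omega, ⟨A, hA, rfl⟩, ?_⟩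
  intro h hh hH y hy
  have hdisj : Disjoint T A := by
    rw [Finset.disjoint_left]
    intro i hi hiA
    have h1 := Finset.mem_range.mp (hT hi)
    have h2 := hA hiA
    unfold pos at h2
    rw [Finset.mem_filter, Finset.mem_Ico] at h2
    omega
  rw [Finset.sum_union hdisj] at hy
  refine (perturb hr ((h : ℝ) * b) N' y (∑ i ∈ T, wt r i + ∑ i ∈ A, wt r i)).trans ?_
  have h1 := hsum h hh (by push_cast; exact hH)
  have h2 : 2 * Real.pi * |(h : ℝ) * b| * (r : ℝ) ^ N' * |y - (∑ i ∈ T, wt r i + ∑ i ∈ A, wt r i)| ≤ 1 := by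
    calc 2 * Real.pi * |(h : ℝ) * b| * (r : ℝ) ^ N' * |y - (∑ i ∈ T, wt r i + ∑ i ∈ A, wt r i)|
        ≤ 2 * Real.pi * |(h : ℝ) * b| * (r : ℝ) ^ N' * ((r : ℝ) ^ (N' + g))⁻¹ := by
          gcongr
      _ = 2 * Real.pi * |(h : ℝ) * b| / (r : ℝ) ^ g := by
          rw [pow_add]
          field_simp
      _ ≤ 1 := by
          rw [div_le_one (by positivity)]
          refine le_trans ?_ hg.le
          rw [abs_mul]
          gcongr
  linarith

/-- The digit sequence of a set of positions. -/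
noncomputable def dig (r : ℕ) (hr : 2 ≤ r) (S : Set ℕ) : ℕ → Fin r := by
  classical
  exact fun i => if i ∈ S then ⟨1, by omega⟩ else ⟨0, by omega⟩

lemma dig_of_mem {r : ℕ} (hr : 2 ≤ r) {S : Set ℕ} {i : ℕ} (hi : i ∈ S) :
    ((dig r hr S i : Fin r) : ℕ) = 1 := by
  unfold dig
  simp [hi]

lemma dig_of_not_mem {r : ℕ} (hr : 2 ≤ r) {S : Set ℕ} {i : ℕ} (hi : i ∉ S) :
    ((dig r hr S i : Fin r) : ℕ) = 0 := by
  unfold dig
  simp [hi]

/-- The number whose digits are given by `S`. -/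
noncomputable def num (r : ℕ) (hr : 2 ≤ r) (S : Set ℕ) : ℝ := Real.ofDigits (dig r hr S)

lemma abs_num_sub_le {r : ℕ} (hr : 2 ≤ r) {S : Set ℕ} {T : Finset ℕ} {M : ℕ}
    (hTM : T ⊆ Finset.range M) (hTS : ∀ i < M, i ∈ S ↔ i ∈ T) :
    |num r hr S - ∑ i ∈ T, wt r i| ≤ ((r : ℝ) ^ M)⁻¹ := by
  unfold num
  rw [Real.ofDigits_eq_sum_add_ofDigits _ M]
  have h1 : ∑ i ∈ Finset.range M, Real.ofDigitsTerm (dig r hr S) i = ∑ i ∈ T, wt r i := by
    rw [← Finset.sum_subset hTM]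
    · apply Finset.sum_congr rfl
      intro i hi
      have hiS : i ∈ S := (hTS i (Finset.mem_range.mp (hTM hi))).mpr hi
      unfold Real.ofDigitsTerm wt
      rw [dig_of_mem hr hiS]
      simp
    · intro i hi hiT
      have hiS : i ∉ S := fun h => hiT ((hTS i (Finset.mem_range.mp hi)).mp h)
      unfold Real.ofDigitsTerm
      rw [dig_of_not_mem hr hiS]
      simp
  rw [h1, add_sub_cancel_left, abs_of_nonneg]
  · apply mul_le_of_le_one_right (by positivity)
    exact Real.ofDigits_le_one _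
  · apply mul_nonneg (by positivity)
    exact Real.ofDigits_nonneg _

theorem exists_sparse {r : ℕ} (hr : 2 ≤ r) {b : ℝ} (hb : Irrational b) :
    ∃ S : Set ℕ, ∃ N : ℕ → ℕ, StrictMono N ∧ (∀ k, ∃ M, ∀ i ∈ S, M ≤ i → 2 ^ k ∣ i) ∧
      ∀ h : ℤ, h ≠ 0 → Filter.Tendsto (fun k => (1 / (N k : ℝ)) *
        ‖∑ n ∈ Finset.range (N k), ec (((h : ℝ) * b * (r : ℝ) ^ n) * num r hr S)‖)
        Filter.atTop (nhds 0) := by
  obtain ⟨f, hf0, hf⟩ := exists_seq_of_rel (StepRel r b) (exists_stepRel hr hb) (∅, 0, 0)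
  have hsub : ∀ k, (f k).1 ⊆ Finset.range (f k).2.1 := by
    intro k
    induction k with
    | zero => rw [hf0]; simp
    | succ k ih =>
      obtain ⟨h1, h2, ⟨A, hA, hA'⟩, -⟩ := hf k ih
      rw [hA']
      intro i hi
      rw [Finset.mem_union] at hi
      rw [Finset.mem_range]
      rcases hi with hi | hi
      · have := Finset.mem_range.mp (ih hi)
        omega
      · have h3 := hA hi
        unfold pos at h3
        rw [Finset.mem_filter, Finset.mem_Ico] at h3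
        omega
  have hprop := fun k => hf k (hsub k)
  set S : Set ℕ := {i | ∃ k, i ∈ (f k).1} with hS
  have hMmono : Monotone (fun k => (f k).2.1) := by
    apply monotone_nat_of_le_succ
    intro k
    obtain ⟨h1, h2, -, -⟩ := hprop k
    omega
  have hTmono : Monotone (fun k => (f k).1) := by
    apply monotone_nat_of_le_succ
    intro k
    obtain ⟨-, -, ⟨A, hA, hA'⟩, -⟩ := hprop k
    show (f k).1 ⊆ (f (k + 1)).1
    rw [hA']
    exact Finset.subset_union_left
  -- elements outside stage `k` are large and divisible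
  have hout : ∀ k i, i ∈ S → i ∉ (f k).1 → (f k).2.1 ≤ i ∧ 2 ^ k ∣ i := by
    intro k i hiS hik
    obtain ⟨j, hj⟩ := hiS
    have hkj : k ≤ j := by
      by_contra hlt
      exact hik (hTmono (by omega : j ≤ k) hj)
    -- induction on j
    induction j with
    | zero =>
      rw [hf0] at hj
      simp at hj
    | succ j ih =>
      by_cases hjj : i ∈ (f j).1
      · apply ih hjj
        by_contra hlt
        exact hik (hTmono (by omega : j ≤ k) hjj)
      · obtain ⟨-, -, ⟨A, hA, hA'⟩, -⟩ := hprop j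
        rw [hA', Finset.mem_union] at hj
        have hiA : i ∈ A := hj.resolve_left hjj
        have h3 := hA hiA
        unfold pos at h3
        rw [Finset.mem_filter, Finset.mem_Ico] at h3
        have hkj' : k ≤ j := by
          by_contra hlt
          have hjk : k = j + 1 := by omega
          apply hik
          rw [hjk, hA', Finset.mem_union]
          exact Or.inr hiA
        have h4 : (f k).2.1 ≤ (f j).2.1 := hMmono hkj'
        exact ⟨by omega, (pow_dvd_pow 2 hkj').trans h3.2⟩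
  have hiff : ∀ k, ∀ i < (f k).2.1, i ∈ S ↔ i ∈ (f k).1 := by
    intro k i hi
    constructor
    · intro hiS
      by_contra hik
      have := (hout k i hiS hik).1
      omega
    · intro hik
      exact ⟨k, hik⟩
  refine ⟨S, fun k => (f (k + 1)).2.2, ?_, ?_, ?_⟩
  · apply strictMono_nat_of_lt_succ
    intro k
    obtain ⟨-, h2, -, -⟩ := hprop k
    obtain ⟨h1, -, -, -⟩ := hprop (k + 1)
    omega
  · intro k
    refine ⟨(f k).2.1, ?_⟩
    intro i hiS hi
    have hik : i ∉ (f k).1 := by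
      intro hik
      have := Finset.mem_range.mp (hsub k hik)
      omega
    exact (hout k i hiS hik).2
  · intro h hh
    have hNge : ∀ k, k + 1 ≤ (f (k + 1)).2.2 := by
      intro k
      induction k with
      | zero =>
        obtain ⟨h1, -, -, -⟩ := hprop 0
        omega
      | succ k ih =>
        obtain ⟨-, h2, -, -⟩ := hprop k
        obtain ⟨h1, -, -, -⟩ := hprop (k + 1)
        omega
    have hbound : ∀ᶠ k : ℕ in Filter.atTop, (1 / ((f (k + 1)).2.2 : ℝ)) *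
        ‖∑ n ∈ Finset.range (f (k + 1)).2.2, ec (((h : ℝ) * b * (r : ℝ) ^ n) * num r hr S)‖
        ≤ 2 * (1 / ((k : ℝ) + 1)) := by
      obtain ⟨k₀, hk₀⟩ := exists_nat_ge |(h : ℝ)|
      filter_upwards [Filter.eventually_ge_atTop k₀] with k hk
      obtain ⟨-, -, -, h4⟩ := hprop k
      have h5 := h4 h hh (hk₀.trans (by
        have : (k₀ : ℝ) ≤ k := by exact_mod_cast hk
        linarith)) (num r hr S) (abs_num_sub_le hr (hsub (k + 1)) (hiff (k + 1)))
      have hNk : (k : ℝ) + 1 ≤ (f (k + 1)).2.2 := by exact_mod_cast hNge k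
      have hkpos : (0 : ℝ) < (k : ℝ) + 1 := by positivity
      have hNpos : (0 : ℝ) < (f (k + 1)).2.2 := by linarith
      calc (1 / ((f (k + 1)).2.2 : ℝ)) *
        ‖∑ n ∈ Finset.range (f (k + 1)).2.2, ec (((h : ℝ) * b * (r : ℝ) ^ n) * num r hr S)‖
          ≤ (1 / ((f (k + 1)).2.2 : ℝ)) * ((1 / ((k : ℝ) + 1)) * (f (k + 1)).2.2 + 1) := by
            gcongr
        _ = 1 / ((k : ℝ) + 1) + 1 / ((f (k + 1)).2.2 : ℝ) := by
            field_simp
        _ ≤ 1 / ((k : ℝ) + 1) + 1 / ((k : ℝ) + 1) := by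
            gcongr
        _ = _ := by ring
    refine squeeze_zero' (Filter.Eventually.of_forall (fun k => by positivity)) hbound ?_
    have h6 := (tendsto_one_div_add_atTop_nhds_zero_nat (𝕜 := ℝ)).const_mul 2
    rw [mul_zero] at h6
    exact h6

end Pool.Agent.Lib.MP_f44585_an
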