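import Pool.Agent.Lib.MP_f44585_an.Step

set_option autoImplicit false

open Finset MeasureTheory

namespace Pool.Agent.Lib.MP_f44585_an

/-- Averages along a sequence. -/
noncomputable def avg (t : ℕ → UnitAddCircle) (N : ℕ) (f : UnitAddCircle → ℂ) : ℂ :=
  ((N : ℝ)⁻¹ : ℝ) * ∑ n ∈ Finset.range N, f (t n)

lemma norm_avg_sub_le (t : ℕ → UnitAddCircle) (N : ℕ) (f g : C(UnitAddCircle, ℂ)) :
    ‖avg t N f - avg t N g‖ ≤ ‖f - g‖ := by
  unfold avg
  rw [← mul_sub, ← Finset.sum_sub_distrib, norm_mul, Complex.norm_real, Real.norm_of_nonneg (by positivity)]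
  rcases Nat.eq_zero_or_pos N with hN | hN
  · subst hN; simp
  have hN' : (0 : ℝ) < N := by exact_mod_cast hN
  rw [inv_mul_le_iff₀ hN']
  refine (norm_sum_le _ _).trans ?_
  calc ∑ n ∈ Finset.range N, ‖f (t n) - g (t n)‖ ≤ ∑ n ∈ Finset.range N, ‖f - g‖ := by
        apply Finset.sum_le_sum
        intro n _
        exact (f - g).norm_coe_le_norm (t n)
    _ = N * ‖f - g‖ := by rw [Finset.sum_const, Finset.card_range, nsmul_eq_mul]

/-- Weyl's criterion along a subsequence of times, for complex valued functions. -/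
lemma weyl (t : ℕ → UnitAddCircle) (N : ℕ → ℕ) (hN : ∀ᶠ k in Filter.atTop, 0 < N k)
    (hF : ∀ h : ℤ, h ≠ 0 → Filter.Tendsto (fun k => avg t (N k) (fourier h)) Filter.atTop (nhds 0))
    (f : C(UnitAddCircle, ℂ)) :
    Filter.Tendsto (fun k => avg t (N k) f) Filter.atTop (nhds (∫ x, f x ∂AddCircle.haarAddCircle)) := by
  -- first for trigonometric polynomials
  have hspan : ∀ g ∈ Submodule.span ℂ (Set.range (fourier (T := (1 : ℝ)))),
      Filter.Tendsto (fun k => avg t (N k) g) Filter.atTop (nhds (∫ x, g x ∂AddCircle.haarAddCircle)) := by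
    intro g hg
    induction hg using Submodule.span_induction with
    | mem x hx =>
      obtain ⟨h, rfl⟩ := hx
      by_cases hh : h = 0
      · subst hh
        have h1 : ∫ x : UnitAddCircle, (fourier 0 : C(UnitAddCircle, ℂ)) x ∂AddCircle.haarAddCircle = 1 := by
          simp
        rw [h1]
        apply Filter.Tendsto.congr' _ tendsto_const_nhds
        filter_upwards [hN] with k hk
        have hN' : ((N k : ℝ)) ≠ 0 := by positivity
        unfold avg
        simp only [fourier_zero, Finset.sum_const, Finset.card_range, nsmul_eq_mul, mul_one]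
        rw [← Complex.ofReal_natCast, ← Complex.ofReal_mul, inv_mul_cancel₀ hN']
        simp
      · have h1 : ∫ x : UnitAddCircle, (fourier h : C(UnitAddCircle, ℂ)) x ∂AddCircle.haarAddCircle = 0 := by
          apply integral_eq_zero_of_add_right_eq_neg (μ := AddCircle.haarAddCircle)
            (g := ((1 / 2 / h : ℝ) : UnitAddCircle))
          intro x
          have := fourier_add_half_inv_index (T := (1 : ℝ)) hh (by norm_num : (0 : ℝ) < 1) x
          exact this
        rw [h1]
        exact hF h hh
    | zero =>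
      have : (fun k => avg t (N k) ((0 : C(UnitAddCircle, ℂ)))) = fun _ => 0 := by
        funext k
        simp [avg]
      rw [this]
      simp
    | add x y _ _ hx hy =>
      have h1 : ∫ a, (x + y) a ∂(AddCircle.haarAddCircle (T := (1 : ℝ)))
          = ∫ a, x a ∂AddCircle.haarAddCircle + ∫ a, y a ∂AddCircle.haarAddCircle := by
        simp only [ContinuousMap.add_apply]
        apply integral_add
        · exact x.continuous.integrable_of_hasCompactSupport (HasCompactSupport.of_compactSpace _)
        · exact y.continuous.integrable_of_hasCompactSupport (HasCompactSupport.of_compactSpace _)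
      rw [h1]
      have h2 : (fun k => avg t (N k) ((x + y : C(UnitAddCircle, ℂ))))
          = fun k => avg t (N k) x + avg t (N k) y := by
        funext k
        unfold avg
        simp only [ContinuousMap.add_apply, Finset.sum_add_distrib]
        ring
      rw [h2]
      exact hx.add hy
    | smul a x _ hx =>
      have h1 : ∫ z, (a • x) z ∂(AddCircle.haarAddCircle (T := (1 : ℝ)))
          = a * ∫ z, x z ∂AddCircle.haarAddCircle := by
        simp only [ContinuousMap.smul_apply, smul_eq_mul]
        exact integral_const_mul a _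
      rw [h1]
      have h2 : (fun k => avg t (N k) ((a • x : C(UnitAddCircle, ℂ))))
          = fun k => a * avg t (N k) x := by
        funext k
        unfold avg
        simp only [ContinuousMap.smul_apply, smul_eq_mul, ← Finset.mul_sum]
        ring
      rw [h2]
      exact hx.const_mul a
  rw [Metric.tendsto_nhds]
  intro ε hε
  have hmem : f ∈ (Submodule.span ℂ (Set.range (fourier (T := (1 : ℝ))))).topologicalClosure := by
    rw [span_fourier_closure_eq_top]
    trivial
  rw [← SetLike.mem_coe, Submodule.topologicalClosure_coe, Metric.mem_closure_iff] at hmem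
  obtain ⟨g, hg, hfg⟩ := hmem (ε / 3) (by positivity)
  rw [dist_eq_norm] at hfg
  have h1 := (Metric.tendsto_nhds.mp (hspan g hg)) (ε / 3) (by positivity)
  filter_upwards [h1] with k hk
  have h2 : ‖∫ x, g x ∂AddCircle.haarAddCircle - ∫ x, f x ∂(AddCircle.haarAddCircle (T := (1 : ℝ)))‖ ≤ ‖f - g‖ := by
    rw [← integral_sub]
    · refine (norm_integral_le_of_norm_le_const (C := ‖f - g‖) ?_).trans ?_
      · apply Filter.Eventually.of_forall
        intro x
        rw [norm_sub_rev]
        exact (f - g).norm_coe_le_norm x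
      · simp
    · exact g.continuous.integrable_of_hasCompactSupport (HasCompactSupport.of_compactSpace _)
    · exact f.continuous.integrable_of_hasCompactSupport (HasCompactSupport.of_compactSpace _)
  have h3 := norm_avg_sub_le t (N k) f g
  rw [dist_eq_norm] at hk ⊢
  calc ‖avg t (N k) f - ∫ x, f x ∂AddCircle.haarAddCircle‖
      = ‖(avg t (N k) f - avg t (N k) g) + (avg t (N k) g - ∫ x, g x ∂AddCircle.haarAddCircle)
        + (∫ x, g x ∂AddCircle.haarAddCircle - ∫ x, f x ∂AddCircle.haarAddCircle)‖ := by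
        congr 1; ring
    _ ≤ ‖avg t (N k) f - avg t (N k) g‖ + ‖avg t (N k) g - ∫ x, g x ∂AddCircle.haarAddCircle‖
        + ‖∫ x, g x ∂AddCircle.haarAddCircle - ∫ x, f x ∂AddCircle.haarAddCircle‖ := norm_add₃_le
    _ < ε := by linarith

/-- Closed sets are not visited too often. -/
lemma closed_visits (t : ℕ → UnitAddCircle) (N : ℕ → ℕ) (hN : ∀ᶠ k in Filter.atTop, 0 < N k)
    (hF : ∀ h : ℤ, h ≠ 0 → Filter.Tendsto (fun k => avg t (N k) (fourier h)) Filter.atTop (nhds 0))
    {F : Set UnitAddCircle} (hFc : IsClosed F) {m : ℝ} (hm0 : 0 ≤ m)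
    (hm : AddCircle.haarAddCircle F ≤ ENNReal.ofReal m) {η : ℝ} (hη : 0 < η) :
    ∀ᶠ k in Filter.atTop, ∀ U : Finset ℕ, U ⊆ Finset.range (N k) → (∀ n ∈ U, t n ∈ F) →
      (U.card : ℝ) / N k ≤ m + η := by
  classical
  -- choose a thickened indicator
  have hlim := tendsto_lintegral_thickenedIndicator_of_isClosed (AddCircle.haarAddCircle (T := (1 : ℝ))) hFc
    (δs := fun n : ℕ => 1 / ((n : ℝ) + 1)) (fun n => by positivity)
    tendsto_one_div_add_atTop_nhds_zero_nat
  have hlt : AddCircle.haarAddCircle F < ENNReal.ofReal (m + η / 2) := by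
    refine lt_of_le_of_lt hm ?_
    rw [ENNReal.ofReal_lt_ofReal_iff (by positivity)]
    linarith
  obtain ⟨j, hj⟩ := (hlim.eventually (gt_mem_nhds hlt)).exists
  have hδ : (0 : ℝ) < 1 / ((j : ℝ) + 1) := by positivity
  set φ := thickenedIndicator hδ F with hφ
  have hφc : Continuous (fun x : UnitAddCircle => ((φ x : NNReal) : ℝ)) := by
    exact NNReal.continuous_coe.comp φ.continuous
  set f : C(UnitAddCircle, ℂ) := ⟨fun x => (((φ x : NNReal) : ℝ) : ℂ), Complex.continuous_ofReal.comp hφc⟩ with hf
  have hint : Integrable (fun x : UnitAddCircle => ((φ x : NNReal) : ℝ)) AddCircle.haarAddCircle :=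
    hφc.integrable_of_hasCompactSupport (HasCompactSupport.of_compactSpace _)
  have hval : ∫ x, ((φ x : NNReal) : ℝ) ∂(AddCircle.haarAddCircle (T := (1 : ℝ))) < m + η / 2 := by
    have h1 := lintegral_coe_eq_integral (fun x : UnitAddCircle => φ x) hint
    rw [h1] at hj
    rwa [ENNReal.ofReal_lt_ofReal_iff (by positivity)] at hj
  have hw := weyl t N hN hF f
  have hfi : ∫ x, f x ∂(AddCircle.haarAddCircle (T := (1 : ℝ)))
      = ((∫ x, ((φ x : NNReal) : ℝ) ∂(AddCircle.haarAddCircle (T := (1 : ℝ))) : ℝ) : ℂ) := by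
    simp only [hf, ContinuousMap.coe_mk]
    exact integral_ofReal
  rw [hfi] at hw
  have hre : Filter.Tendsto (fun k => (avg t (N k) f).re) Filter.atTop
      (nhds (∫ x, ((φ x : NNReal) : ℝ) ∂(AddCircle.haarAddCircle (T := (1 : ℝ))))) := by
    have h1 := (Complex.continuous_re.tendsto _).comp hw
    rw [Complex.ofReal_re] at h1
    exact h1
  have hev := hre.eventually (gt_mem_nhds (show ∫ x, ((φ x : NNReal) : ℝ)
    ∂(AddCircle.haarAddCircle (T := (1 : ℝ))) < m + η by linarith))
  filter_upwards [hev, hN] with k hk hNk U hU hUF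
  have hN' : (0 : ℝ) < N k := by exact_mod_cast hNk
  refine le_trans ?_ hk.le
  have havg : (avg t (N k) f).re = (N k : ℝ)⁻¹ * ∑ n ∈ Finset.range (N k), ((φ (t n) : NNReal) : ℝ) := by
    unfold avg
    rw [Complex.re_ofReal_mul]
    congr 1
    rw [Complex.re_sum]
    simp [hf]
  rw [havg, div_eq_inv_mul]
  apply mul_le_mul_of_nonneg_left _ (by positivity)
  calc (U.card : ℝ) = ∑ n ∈ U, (1 : ℝ) := by simp
    _ ≤ ∑ n ∈ U, ((φ (t n) : NNReal) : ℝ) := by
        apply Finset.sum_le_sum
        intro n hn
        have h1 : φ (t n) = 1 := thickenedIndicator_one hδ F (hUF n hn)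
        rw [h1]; simp
    _ ≤ ∑ n ∈ Finset.range (N k), ((φ (t n) : NNReal) : ℝ) := by
        apply Finset.sum_le_sum_of_subset_of_nonneg hU
        intro n _ _
        positivity

end Pool.Agent.Lib.MP_f44585_an
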