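import Pool.Agent.Lib.MP_f44585_an.Construct
import Pool.Agent.Lib.MP_f44585_an.Weyl

set_option autoImplicit false

open Finset MeasureTheory

namespace Pool.Agent.Lib.MP_f44585_an

/-- Number of occurrences of the block `w` among the first `N` blocks of base `r` digits of `x`. -/
noncomputable def cnt (r : ℕ) (x : ℝ) (k : ℕ) (w : Fin k → Fin r) (N : ℕ) : ℕ :=
  ((Finset.range N).filter (fun n => ∀ i : Fin k,
                ⌊x * (r : ℝ) ^ (n + (i : ℕ) + 1)⌋ - (r : ℤ) * ⌊x * (r : ℝ) ^ (n + (i : ℕ))⌋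
                  = ((w i : ℕ) : ℤ))).card

/-- Integer with base `r` digits `u 0, ..., u (j-1)`. -/
def blk (r : ℕ) (u : ℕ → ℤ) : ℕ → ℤ
  | 0 => 0
  | (j + 1) => r * blk r u j + u j

lemma floor_blk (r : ℕ) (x : ℝ) (n : ℕ) (u : ℕ → ℤ) (j : ℕ)
    (h : ∀ i < j, ⌊x * (r : ℝ) ^ (n + i + 1)⌋ - (r : ℤ) * ⌊x * (r : ℝ) ^ (n + i)⌋ = u i) :
    ⌊x * (r : ℝ) ^ (n + j)⌋ = (r : ℤ) ^ j * ⌊x * (r : ℝ) ^ n⌋ + blk r u j := by
  induction j with
  | zero => simp [blk]
  | succ j ih =>
    have h1 := ih (fun i hi => h i (by omega))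
    have h2 := h j (by omega)
    rw [blk, ← Nat.add_assoc]
    rw [h1] at h2
    have h3 : (r : ℤ) ^ (j + 1) = (r : ℤ) ^ j * r := pow_succ _ _
    rw [h3]
    linear_combination h2

lemma mem_closedBall_of_block {r : ℕ} (hr : 2 ≤ r) (x : ℝ) (n : ℕ) (u : ℕ → ℤ) (j : ℕ)
    (h : ∀ i < j, ⌊x * (r : ℝ) ^ (n + i + 1)⌋ - (r : ℤ) * ⌊x * (r : ℝ) ^ (n + i)⌋ = u i) :
    ((x * (r : ℝ) ^ n : ℝ) : UnitAddCircle) ∈ Metric.closedBall
      ((((blk r u j : ℝ) + 1 / 2) / (r : ℝ) ^ j : ℝ) : UnitAddCircle) (1 / (2 * (r : ℝ) ^ j)) := by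
  have hr0 : (0 : ℝ) < r := by positivity
  have h1 := floor_blk r x n u j h
  have h2 := Int.floor_le (x * (r : ℝ) ^ (n + j))
  have h3 := Int.lt_floor_add_one (x * (r : ℝ) ^ (n + j))
  rw [h1] at h2 h3
  push_cast at h2 h3
  rw [Metric.mem_closedBall, dist_eq_norm, ← AddCircle.coe_sub, UnitAddCircle.norm_eq]
  refine (nd_le _ ⌊x * (r : ℝ) ^ n⌋).trans ?_
  have hj : (0 : ℝ) < (r : ℝ) ^ j := by positivity
  rw [pow_add] at h2 h3
  have e1 : x * (r : ℝ) ^ n - ((blk r u j : ℝ) + 1 / 2) / (r : ℝ) ^ j - (⌊x * (r : ℝ) ^ n⌋ : ℝ)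
      = (x * ((r : ℝ) ^ n * (r : ℝ) ^ j) - ((r : ℝ) ^ j * (⌊x * (r : ℝ) ^ n⌋ : ℝ) + blk r u j) - 1 / 2) / (r : ℝ) ^ j := by
    field_simp
    ring
  rw [e1, abs_div, abs_of_pos hj, div_le_div_iff₀ hj (by positivity)]
  have e2 : |x * ((r : ℝ) ^ n * (r : ℝ) ^ j) - ((r : ℝ) ^ j * (⌊x * (r : ℝ) ^ n⌋ : ℝ) + blk r u j) - 1 / 2| ≤ 1 / 2 := by
    rw [abs_le]
    constructor <;> linarith
  nlinarith

lemma digit_range {r : ℕ} (hr : 2 ≤ r) (x : ℝ) (m : ℕ) :
    0 ≤ ⌊x * (r : ℝ) ^ (m + 1)⌋ - (r : ℤ) * ⌊x * (r : ℝ) ^ m⌋ ∧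
      ⌊x * (r : ℝ) ^ (m + 1)⌋ - (r : ℤ) * ⌊x * (r : ℝ) ^ m⌋ < r := by
  have hr0 : (0 : ℝ) < r := by positivity
  have h1 := Int.floor_le (x * (r : ℝ) ^ m)
  have h2 := Int.lt_floor_add_one (x * (r : ℝ) ^ m)
  have e : x * (r : ℝ) ^ (m + 1) = (r : ℝ) * (x * (r : ℝ) ^ m) := by rw [pow_succ]; ring
  constructor
  · have : (r : ℤ) * ⌊x * (r : ℝ) ^ m⌋ ≤ ⌊x * (r : ℝ) ^ (m + 1)⌋ := by
      rw [Int.le_floor, e]
      push_cast
      exact mul_le_mul_of_nonneg_left h1 hr0.le
    linarith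
  · have : ⌊x * (r : ℝ) ^ (m + 1)⌋ < (r : ℤ) * ⌊x * (r : ℝ) ^ m⌋ + r := by
      rw [Int.floor_lt, e]
      push_cast
      nlinarith
    linarith

/-- Every time carries some block. -/
lemma le_sum_cnt {r : ℕ} (hr : 2 ≤ r) (x : ℝ) (k N : ℕ) :
    N ≤ ∑ w : Fin k → Fin r, cnt r x k w N := by
  classical
  have h1 : Finset.range N ⊆ (Finset.univ : Finset (Fin k → Fin r)).biUnion (fun w =>
      (Finset.range N).filter (fun n => ∀ i : Fin k,
                ⌊x * (r : ℝ) ^ (n + (i : ℕ) + 1)⌋ - (r : ℤ) * ⌊x * (r : ℝ) ^ (n + (i : ℕ))⌋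
                  = ((w i : ℕ) : ℤ))) := by
    intro n hn
    rw [Finset.mem_biUnion]
    refine ⟨fun i => ⟨(⌊x * (r : ℝ) ^ (n + (i : ℕ) + 1)⌋
      - (r : ℤ) * ⌊x * (r : ℝ) ^ (n + (i : ℕ))⌋).toNat, ?_⟩, Finset.mem_univ _, ?_⟩
    · have := digit_range hr x (n + i)
      omega
    · rw [Finset.mem_filter]
      refine ⟨hn, ?_⟩
      intro i
      have := digit_range hr x (n + i)
      simp only
      omega
  calc N = (Finset.range N).card := (Finset.card_range N).symm
    _ ≤ _ := Finset.card_le_card h1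
    _ ≤ ∑ w : Fin k → Fin r, cnt r x k w N := by
        refine (Finset.card_biUnion_le).trans ?_
        apply Finset.sum_le_sum
        intro w _
        unfold cnt
        exact le_rfl

/-- Equidistribution of blocks along the sequence of times. -/
lemma tendsto_cnt {r : ℕ} (hr : 2 ≤ r) (x : ℝ) (N : ℕ → ℕ) (hN : ∀ᶠ k in Filter.atTop, 0 < N k)
    (hF : ∀ h : ℤ, h ≠ 0 → Filter.Tendsto (fun k => (1 / (N k : ℝ)) *
        ‖∑ n ∈ Finset.range (N k), ec ((h : ℝ) * (x * (r : ℝ) ^ n))‖) Filter.atTop (nhds 0))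
    (ℓ : ℕ) (w : Fin ℓ → Fin r) :
    Filter.Tendsto (fun k => (cnt r x ℓ w (N k) : ℝ) / N k) Filter.atTop (nhds (1 / (r : ℝ) ^ ℓ)) := by
  classical
  have hr0 : (0 : ℝ) < r := by positivity
  have hr1 : (1 : ℝ) < r := by exact_mod_cast (by omega : 1 < r)
  set t : ℕ → UnitAddCircle := fun n => ((x * (r : ℝ) ^ n : ℝ) : UnitAddCircle) with ht
  have hF' : ∀ h : ℤ, h ≠ 0 → Filter.Tendsto (fun k => avg t (N k) (fourier h)) Filter.atTop (nhds 0) := by
    intro h hh
    rw [tendsto_zero_iff_norm_tendsto_zero]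
    refine (hF h hh).congr ?_
    intro k
    unfold avg
    rw [norm_mul, Complex.norm_real, Real.norm_of_nonneg (by positivity), one_div]
    congr 2
    apply Finset.sum_congr rfl
    intro n _
    rw [ht]
    simp only
    rw [fourier_coe_apply]
    unfold ec
    congr 1
    push_cast
    ring
  -- upper bound for each word
  have hup : ∀ (v : Fin ℓ → Fin r) (η : ℝ), 0 < η →
      ∀ᶠ k in Filter.atTop, (cnt r x ℓ v (N k) : ℝ) / N k ≤ 1 / (r : ℝ) ^ ℓ + η := by
    intro v η hη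
    set u : ℕ → ℤ := fun i => if hi : i < ℓ then ((v ⟨i, hi⟩ : ℕ) : ℤ) else 0 with hu
    have hmeas : AddCircle.haarAddCircle (Metric.closedBall
      ((((blk r u ℓ : ℝ) + 1 / 2) / (r : ℝ) ^ ℓ : ℝ) : UnitAddCircle) (1 / (2 * (r : ℝ) ^ ℓ)))
        ≤ ENNReal.ofReal (1 / (r : ℝ) ^ ℓ) := by
      have h1 := AddCircle.volume_closedBall (T := (1 : ℝ))
        (x := ((((blk r u ℓ : ℝ) + 1 / 2) / (r : ℝ) ^ ℓ : ℝ) : UnitAddCircle)) (1 / (2 * (r : ℝ) ^ ℓ))
      have h2 := AddCircle.volume_eq_smul_haarAddCircle (T := (1 : ℝ))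
      rw [ENNReal.ofReal_one, one_smul] at h2
      rw [← h2, h1]
      apply ENNReal.ofReal_le_ofReal
      refine (min_le_right _ _).trans (le_of_eq ?_)
      field_simp
    have h3 := closed_visits t N hN hF' (Metric.isClosed_closedBall) (by positivity) hmeas hη
    filter_upwards [h3] with k hk
    unfold cnt
    apply hk
    · exact Finset.filter_subset _ _
    · intro n hn
      rw [Finset.mem_filter] at hn
      apply mem_closedBall_of_block hr
      intro i hi
      have := hn.2 ⟨i, hi⟩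
      simp only at this
      rw [this, hu]
      simp [hi]
  rw [Metric.tendsto_nhds]
  intro ε hε
  have hcard : (0 : ℝ) < (r : ℝ) ^ ℓ := by positivity
  set η : ℝ := ε / (2 * (r : ℝ) ^ ℓ) with hη
  have hη0 : 0 < η := by positivity
  have hηε : η ≤ ε / 2 := by
    rw [hη]
    apply div_le_div_of_nonneg_left hε.le (by norm_num)
    have : (1 : ℝ) ≤ (r : ℝ) ^ ℓ := one_le_pow₀ hr1.le
    linarith
  have hall : ∀ᶠ k in Filter.atTop, ∀ v : Fin ℓ → Fin r,
      (cnt r x ℓ v (N k) : ℝ) / N k ≤ 1 / (r : ℝ) ^ ℓ + η := by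
    rw [Filter.eventually_all]
    intro v
    exact hup v η hη0
  filter_upwards [hall, hN] with k hk hNk
  have hN' : (0 : ℝ) < N k := by exact_mod_cast hNk
  rw [Real.dist_eq, abs_lt]
  constructor
  · -- lower bound from the total
    have h1 : (1 : ℝ) ≤ ∑ v : Fin ℓ → Fin r, (cnt r x ℓ v (N k) : ℝ) / N k := by
      rw [← Finset.sum_div, le_div_iff₀ hN', one_mul]
      exact_mod_cast le_sum_cnt hr x ℓ (N k)
    have h2 : ∑ v : Fin ℓ → Fin r, (cnt r x ℓ v (N k) : ℝ) / N k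
        = (cnt r x ℓ w (N k) : ℝ) / N k + ∑ v ∈ Finset.univ.erase w, (cnt r x ℓ v (N k) : ℝ) / N k := by
      exact (Finset.add_sum_erase _ (fun v => (cnt r x ℓ v (N k) : ℝ) / N k)
        (Finset.mem_univ w)).symm
    have h3 : ∑ v ∈ Finset.univ.erase w, (cnt r x ℓ v (N k) : ℝ) / N k
        ≤ ∑ v ∈ Finset.univ.erase w, (1 / (r : ℝ) ^ ℓ + η) :=
      Finset.sum_le_sum (fun v _ => hk v)
    rw [Finset.sum_const, Finset.card_erase_of_mem (Finset.mem_univ w), nsmul_eq_mul] at h3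
    have h4 : (((Finset.univ : Finset (Fin ℓ → Fin r)).card - 1 : ℕ) : ℝ) = (r : ℝ) ^ ℓ - 1 := by
      rw [Finset.card_univ, Fintype.card_fun, Fintype.card_fin, Fintype.card_fin, Nat.cast_sub]
      · push_cast; ring
      · exact Nat.one_le_pow _ _ (by omega)
    rw [h4] at h3
    have h5 : ((r : ℝ) ^ ℓ - 1) * (1 / (r : ℝ) ^ ℓ + η) = 1 - 1 / (r : ℝ) ^ ℓ + ((r : ℝ) ^ ℓ - 1) * η := by
      field_simp
    have h6 : ((r : ℝ) ^ ℓ - 1) * η ≤ ε / 2 := by
      have : ((r : ℝ) ^ ℓ) * η = ε / 2 := by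
        rw [hη]; field_simp
      nlinarith
    linarith
  · have := hk w
    linarith

/-- If the blocks are equidistributed along a sequence of times then the number is not
deterministic. -/
lemma tendsto_entropy {r : ℕ} (hr : 2 ≤ r) (x : ℝ) (N : ℕ → ℕ) (hN : ∀ᶠ k in Filter.atTop, 0 < N k)
    (hF : ∀ h : ℤ, h ≠ 0 → Filter.Tendsto (fun k => (1 / (N k : ℝ)) *
        ‖∑ n ∈ Finset.range (N k), ec ((h : ℝ) * (x * (r : ℝ) ^ n))‖) Filter.atTop (nhds 0))
    (ℓ : ℕ) :
    Filter.Tendsto (fun k => ∑ w : Fin ℓ → Fin r, Real.negMulLog ((cnt r x ℓ w (N k) : ℝ) / N k))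
      Filter.atTop (nhds (ℓ * Real.log r)) := by
  have hr0 : (0 : ℝ) < r := by positivity
  have h1 : Filter.Tendsto (fun k => ∑ w : Fin ℓ → Fin r, Real.negMulLog ((cnt r x ℓ w (N k) : ℝ) / N k))
      Filter.atTop (nhds (∑ w : Fin ℓ → Fin r, Real.negMulLog (1 / (r : ℝ) ^ ℓ))) := by
    apply tendsto_finsetSum
    intro w _
    exact (Real.continuous_negMulLog.tendsto _).comp (tendsto_cnt hr x N hN hF ℓ w)
  have h2 : ∑ w : Fin ℓ → Fin r, Real.negMulLog (1 / (r : ℝ) ^ ℓ) = ℓ * Real.log r := by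
    rw [Finset.sum_const, Finset.card_univ, Fintype.card_fun, Fintype.card_fin, Fintype.card_fin,
      nsmul_eq_mul, Real.negMulLog, one_div, Real.log_inv, Real.log_pow]
    push_cast
    field_simp
  rw [h2] at h1
  exact h1

/-- A number with all digits at most `r - 1` and one of them smaller is less than one. -/
lemma ofDigits_lt_one {r : ℕ} (hr : 2 ≤ r) (j : ℕ) : ∀ d : ℕ → Fin r, ((d j : ℕ) = 0) →
    Real.ofDigits d < 1 := by
  have hr0 : (0 : ℝ) < r := by positivity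
  have hr2 : (2 : ℝ) ≤ r := by exact_mod_cast hr
  induction j with
  | zero =>
    intro d hd
    rw [Real.ofDigits_eq_sum_add_ofDigits d 1]
    simp only [Finset.sum_range_one, Real.ofDigitsTerm, hd, Nat.cast_zero, zero_mul, zero_add, pow_one]
    have h1 := Real.ofDigits_le_one (fun i => d (i + 1))
    have h2 := Real.ofDigits_nonneg (fun i => d (i + 1))
    have h3 : (r : ℝ)⁻¹ < 1 := inv_lt_one_of_one_lt₀ (by linarith)
    have h4 : (0 : ℝ) < (r : ℝ)⁻¹ := by positivity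
    nlinarith
  | succ j ih =>
    intro d hd
    rw [Real.ofDigits_eq_sum_add_ofDigits d 1]
    have h1 := ih (fun i => d (i + 1)) hd
    simp only [Finset.sum_range_one, Real.ofDigitsTerm, zero_add, pow_one]
    have h2 : ((d 0 : ℕ) : ℝ) ≤ r - 1 := by
      have := (d 0).isLt
      have h3 : ((d 0 : ℕ) : ℝ) + 1 ≤ r := by exact_mod_cast this
      linarith
    have h4 : (0 : ℝ) < (r : ℝ)⁻¹ := by positivity
    calc ((d 0 : ℕ) : ℝ) * (r : ℝ)⁻¹ + (r : ℝ)⁻¹ * Real.ofDigits (fun i => d (i + 1))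
        < ((r : ℝ) - 1) * (r : ℝ)⁻¹ + (r : ℝ)⁻¹ * 1 := by
          apply add_lt_add_of_le_of_lt
          · gcongr
          · gcongr
      _ = 1 := by field_simp; ring

/-- The digits of `num r hr S` are given by `S`. -/
lemma digit_num {r : ℕ} (hr : 2 ≤ r) {S : Set ℕ} (hS : ∀ n, ∃ j ≥ n, j ∉ S) (n : ℕ) :
    ⌊num r hr S * (r : ℝ) ^ (n + 1)⌋ - (r : ℤ) * ⌊num r hr S * (r : ℝ) ^ n⌋
      = ((dig r hr S n : Fin r) : ℕ) := by
  have hr0 : (0 : ℝ) < r := by positivity
  have hlt : ∀ n, Real.ofDigits (fun i => dig r hr S (i + n)) < 1 := by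
    intro n
    obtain ⟨j, hj, hjS⟩ := hS n
    apply ofDigits_lt_one hr (j - n)
    rw [Nat.sub_add_cancel hj]
    exact dig_of_not_mem hr hjS
  have hnn : ∀ n, 0 ≤ Real.ofDigits (fun i => dig r hr S (i + n)) := fun n => Real.ofDigits_nonneg _
  have hrec : ∀ n, Real.ofDigits (fun i => dig r hr S (i + n)) * r
      = ((dig r hr S n : Fin r) : ℕ) + Real.ofDigits (fun i => dig r hr S (i + (n + 1))) := by
    intro n
    rw [Real.ofDigits_eq_sum_add_ofDigits (fun i => dig r hr S (i + n)) 1]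
    simp only [Finset.sum_range_one, Real.ofDigitsTerm, zero_add, pow_one]
    rw [show (fun i => dig r hr S (i + 1 + n)) = (fun i => dig r hr S (i + (n + 1))) by
      funext i; congr 1; ring]
    field_simp
  have hex : ∀ n, ∃ I : ℤ, num r hr S * (r : ℝ) ^ n = I + Real.ofDigits (fun i => dig r hr S (i + n)) := by
    intro n
    induction n with
    | zero => exact ⟨0, by simp [num]⟩
    | succ n ih =>
      obtain ⟨I, hI⟩ := ih
      refine ⟨I * r + ((dig r hr S n : Fin r) : ℕ), ?_⟩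
      rw [pow_succ, ← mul_assoc, hI, add_mul, hrec n]
      push_cast
      ring
  obtain ⟨I, hI⟩ := hex n
  have h1 : ⌊num r hr S * (r : ℝ) ^ n⌋ = I := by
    rw [Int.floor_eq_iff, hI]
    constructor
    · linarith [hnn n]
    · linarith [hlt n]
  have h2 : ⌊num r hr S * (r : ℝ) ^ (n + 1)⌋ = I * r + ((dig r hr S n : Fin r) : ℕ) := by
    rw [Int.floor_eq_iff, pow_succ, ← mul_assoc, hI, add_mul, hrec n]
    push_cast
    constructor
    · linarith [hnn (n + 1)]
    · linarith [hlt (n + 1)]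
  rw [h1, h2]
  ring

/-- The set `S` has density zero. -/
lemma density_zero {S : Set ℕ} (hS : ∀ k, ∃ M, ∀ i ∈ S, M ≤ i → 2 ^ k ∣ i) {ε : ℝ} (hε : 0 < ε) :
    ∀ᶠ N : ℕ in Filter.atTop, ∀ U : Finset ℕ, U ⊆ Finset.range N → (∀ n ∈ U, n ∈ S) →
      (U.card : ℝ) / N ≤ ε := by
  classical
  obtain ⟨k, hk⟩ := exists_pow_lt_of_lt_one (show (0 : ℝ) < ε / 2 by positivity) (show (1 / 2 : ℝ) < 1 by norm_num)
  obtain ⟨M, hM⟩ := hS k
  obtain ⟨N₀, hN₀⟩ := exists_nat_ge (((M : ℝ) + 1) / (ε / 2))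
  filter_upwards [Filter.eventually_ge_atTop (N₀ + 1)] with N hN U hU hUS
  have hNpos : (0 : ℝ) < N := by
    have : 0 < N := by omega
    exact_mod_cast this
  rw [div_le_iff₀ hNpos]
  have h1 : U ⊆ Finset.range M ∪ (Finset.range (N / 2 ^ k + 1)).image (fun j => 2 ^ k * j) := by
    intro i hi
    rw [Finset.mem_union]
    by_cases him : i < M
    · left; exact Finset.mem_range.mpr him
    · right
      rw [Finset.mem_image]
      obtain ⟨j, hj⟩ := hM i (hUS i hi) (by omega)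
      refine ⟨j, ?_, hj.symm⟩
      rw [Finset.mem_range]
      have hiN := Finset.mem_range.mp (hU hi)
      have : j ≤ N / 2 ^ k := by
        rw [Nat.le_div_iff_mul_le (by positivity)]
        rw [Nat.mul_comm]
        omega
      omega
  have h2 : U.card ≤ M + (N / 2 ^ k + 1) := by
    calc U.card ≤ _ := Finset.card_le_card h1
      _ ≤ (Finset.range M).card + ((Finset.range (N / 2 ^ k + 1)).image (fun j => 2 ^ k * j)).card :=
        Finset.card_union_le _ _
      _ ≤ M + (N / 2 ^ k + 1) := by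
        gcongr
        · exact (Finset.card_range M).le
        · exact Finset.card_image_le.trans (Finset.card_range _).le
  have h3 : ((N / 2 ^ k : ℕ) : ℝ) ≤ N * (1 / 2) ^ k := by
    refine Nat.cast_div_le.trans (le_of_eq ?_)
    push_cast
    rw [div_pow, one_pow]
    ring
  have h4 : (U.card : ℝ) ≤ M + ((N / 2 ^ k : ℕ) + 1) := by exact_mod_cast h2
  have h5 : (M : ℝ) + 1 ≤ (ε / 2) * N := by
    rw [div_le_iff₀ (by positivity)] at hN₀
    have : (N₀ : ℝ) ≤ N := by exact_mod_cast (by omega : N₀ ≤ N)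
    nlinarith
  have h6 : (N : ℝ) * (1 / 2) ^ k ≤ (ε / 2) * N := by
    rw [mul_comm]
    exact mul_le_mul_of_nonneg_right hk.le hNpos.le
  linarith

/-- Frequencies of single digits of `num r hr S`. -/
lemma tendsto_cnt_num {r : ℕ} (hr : 2 ≤ r) {S : Set ℕ}
    (hS : ∀ k, ∃ M, ∀ i ∈ S, M ≤ i → 2 ^ k ∣ i) (w : Fin 1 → Fin r) :
    Filter.Tendsto (fun N : ℕ => (cnt r (num r hr S) 1 w N : ℝ) / N) Filter.atTop
      (nhds (if ((w 0 : Fin r) : ℕ) = 0 then 1 else 0)) := by
  classical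
  have hS' : ∀ n, ∃ j ≥ n, j ∉ S := by
    intro n
    obtain ⟨M, hM⟩ := hS 1
    refine ⟨2 * (max n M) + 1, by omega, ?_⟩
    intro hmem
    have := hM _ hmem (by omega)
    omega
  have hcnt : ∀ N, cnt r (num r hr S) 1 w N
      = ((Finset.range N).filter (fun n => ((dig r hr S n : Fin r) : ℕ) = (w 0 : ℕ))).card := by
    intro N
    unfold cnt
    congr 1
    apply Finset.filter_congr
    intro n _
    constructor
    · intro h
      have h1 := h 0
      simp only [Fin.val_zero, add_zero] at h1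
      rw [digit_num hr hS' n] at h1
      exact_mod_cast h1
    · intro h i
      have hi : i = 0 := Subsingleton.elim _ _
      subst hi
      simp only [Fin.val_zero, add_zero]
      rw [digit_num hr hS' n]
      exact_mod_cast h
  by_cases hw : ((w 0 : Fin r) : ℕ) = 0
  · rw [if_pos hw, Metric.tendsto_nhds]
    intro ε hε
    filter_upwards [density_zero hS (show (0 : ℝ) < ε / 2 by positivity), Filter.eventually_gt_atTop 0] with N hN hN0
    have hNpos : (0 : ℝ) < N := by exact_mod_cast hN0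
    have h1 := hN ((Finset.range N).filter (fun n => n ∈ S)) (Finset.filter_subset _ _) (by
      intro n hn
      exact (Finset.mem_filter.mp hn).2)
    have h2 : cnt r (num r hr S) 1 w N + ((Finset.range N).filter (fun n => n ∈ S)).card = N := by
      rw [hcnt, hw]
      have h3 : (Finset.range N).filter (fun n => ((dig r hr S n : Fin r) : ℕ) = 0)
          = (Finset.range N).filter (fun n => ¬ (n ∈ S)) := by
        apply Finset.filter_congr
        intro n _
        constructor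
        · intro h hn
          rw [dig_of_mem hr hn] at h
          omega
        · intro h
          exact dig_of_not_mem hr h
      rw [h3, add_comm, Finset.card_filter_add_card_filter_not, Finset.card_range]
    have h4 : (cnt r (num r hr S) 1 w N : ℝ) + ((Finset.range N).filter (fun n => n ∈ S)).card = N := by
      exact_mod_cast h2
    rw [Real.dist_eq]
    have h5 : (cnt r (num r hr S) 1 w N : ℝ) / N - 1 = - ((((Finset.range N).filter (fun n => n ∈ S)).card : ℝ) / N) := by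
      field_simp
      linarith
    rw [h5, abs_neg, abs_of_nonneg (by positivity)]
    linarith
  · rw [if_neg hw, Metric.tendsto_nhds]
    intro ε hε
    filter_upwards [density_zero hS (show (0 : ℝ) < ε / 2 by positivity)] with N hN
    have h1 := hN ((Finset.range N).filter (fun n => ((dig r hr S n : Fin r) : ℕ) = (w 0 : ℕ)))
      (Finset.filter_subset _ _) (by
      intro n hn
      by_contra hnS
      have h2 := (Finset.mem_filter.mp hn).2
      rw [dig_of_not_mem hr hnS] at h2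
      exact hw h2.symm)
    rw [hcnt, Real.dist_eq, sub_zero, abs_of_nonneg (by positivity)]
    linarith

/-- Single digit entropies of `num r hr S` tend to zero. -/
lemma tendsto_entropy_num {r : ℕ} (hr : 2 ≤ r) {S : Set ℕ}
    (hS : ∀ k, ∃ M, ∀ i ∈ S, M ≤ i → 2 ^ k ∣ i) :
    Filter.Tendsto (fun N : ℕ => ∑ w : Fin 1 → Fin r, Real.negMulLog ((cnt r (num r hr S) 1 w N : ℝ) / N))
      Filter.atTop (nhds 0) := by
  have h1 : Filter.Tendsto (fun N : ℕ => ∑ w : Fin 1 → Fin r, Real.negMulLog ((cnt r (num r hr S) 1 w N : ℝ) / N))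
      Filter.atTop (nhds (∑ w : Fin 1 → Fin r,
        Real.negMulLog (if ((w 0 : Fin r) : ℕ) = 0 then 1 else 0))) := by
    apply tendsto_finsetSum
    intro w _
    exact (Real.continuous_negMulLog.tendsto _).comp (tendsto_cnt_num hr hS w)
  have h2 : (∑ w : Fin 1 → Fin r, Real.negMulLog (if ((w 0 : Fin r) : ℕ) = 0 then 1 else 0)) = 0 := by
    apply Finset.sum_eq_zero
    intro w _
    split_ifs <;> simp
  rw [h2] at h1
  exact h1

/-- The finite-block form of determinism of the base `r` digits of `y`. -/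
def Det (r : ℕ) (y : ℝ) : Prop :=
  ∀ ε : ℝ, 0 < ε → ∃ k : ℕ, 1 ≤ k ∧ ∃ N₀ : ℕ, ∀ N : ℕ, N₀ ≤ N →
        ∑ w : Fin k → Fin r,
          Real.negMulLog
            ((((Finset.range N).filter (fun n => ∀ i : Fin k,
                ⌊y * (r : ℝ) ^ (n + (i : ℕ) + 1)⌋ - (r : ℤ) * ⌊y * (r : ℝ) ^ (n + (i : ℕ))⌋
                  = ((w i : ℕ) : ℤ))).card : ℝ) / (N : ℝ))
          ≤ ε * (k : ℝ)

/-- Main theorem: for every irrational `b` some deterministic `y` has a non-deterministic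
multiple `b * y`. -/
theorem exists_det_not_det {r : ℕ} (hr : 2 ≤ r) {b : ℝ} (hb : Irrational b) :
    ∃ y : ℝ, Det r y ∧ ¬ Det r (b * y) := by
  obtain ⟨S, N, hN, hS, hF⟩ := exists_sparse hr hb
  refine ⟨num r hr S, ?_, ?_⟩
  · intro ε hε
    refine ⟨1, le_rfl, ?_⟩
    have h1 := (tendsto_entropy_num hr hS).eventually (ge_mem_nhds hε)
    rw [Filter.eventually_atTop] at h1
    obtain ⟨N₀, hN₀⟩ := h1
    refine ⟨N₀, ?_⟩
    intro N hN
    have h2 := hN₀ N hN
    unfold cnt at h2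
    simp only [Nat.cast_one, mul_one]
    exact h2
  · intro hdet
    have hr1 : (1 : ℝ) < r := by exact_mod_cast (by omega : 1 < r)
    have hlog : 0 < Real.log r := Real.log_pos hr1
    obtain ⟨k, hk, N₀, hN₀⟩ := hdet (Real.log r / 2) (by positivity)
    have hNpos : ∀ᶠ j in Filter.atTop, 0 < N j := by
      filter_upwards [Filter.eventually_gt_atTop 0] with j hj
      exact lt_of_le_of_lt (Nat.zero_le _) (hN hj)
    have h1 := tendsto_entropy hr (b * num r hr S) N hNpos (by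
      intro h hh
      refine (hF h hh).congr ?_
      intro j
      congr 2
      apply Finset.sum_congr rfl
      intro n _
      congr 1
      ring) k
    have h2 : (k : ℝ) * Real.log r ≤ Real.log r / 2 * k := by
      apply le_of_tendsto h1
      have hNt : Filter.Tendsto N Filter.atTop Filter.atTop := hN.tendsto_atTop
      filter_upwards [hNt.eventually_ge_atTop N₀] with j hj
      have h3 := hN₀ (N j) hj
      unfold cnt
      exact h3
    have hk' : (1 : ℝ) ≤ k := by exact_mod_cast hk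
    nlinarith

end Pool.Agent.Lib.MP_f44585_an
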