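import Mathlib

set_option autoImplicit false

open Finset

namespace Pool.Agent.Lib.MP_f44585_an

/-- The additive character `t ↦ exp (2 π i t)`. -/
noncomputable def ec (t : ℝ) : ℂ := Complex.exp ((2 * Real.pi * t : ℝ) * Complex.I)

lemma ec_add (s t : ℝ) : ec (s + t) = ec s * ec t := by
  unfold ec
  rw [← Complex.exp_add]
  congr 1
  push_cast
  ring

lemma ec_zero : ec 0 = 1 := by simp [ec]

lemma ec_neg (t : ℝ) : ec (-t) = (starRingEnd ℂ) (ec t) := by
  unfold ec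
  rw [← Complex.exp_conj, map_mul, Complex.conj_ofReal, Complex.conj_I]
  congr 1
  push_cast
  ring

lemma norm_ec (t : ℝ) : ‖ec t‖ = 1 := by
  unfold ec
  exact Complex.norm_exp_ofReal_mul_I _

lemma ec_sum {ι : Type*} (s : Finset ι) (f : ι → ℝ) : ec (∑ i ∈ s, f i) = ∏ i ∈ s, ec (f i) := by
  classical
  induction s using Finset.induction_on with
  | empty => simp [ec_zero]
  | insert a s ha ih => rw [Finset.sum_insert ha, Finset.prod_insert ha, ec_add, ih]

lemma norm_one_add_ec (t : ℝ) : ‖(1 + ec t) / 2‖ = |Real.cos (Real.pi * t)| := by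
  have h : 1 + ec t = 2 * (Real.cos (Real.pi * t) : ℂ) * Complex.exp ((Real.pi * t : ℝ) * Complex.I) := by
    unfold ec
    push_cast
    rw [Complex.cos]
    rw [show (2 * (Real.pi : ℂ) * t * Complex.I) = (Real.pi * t * Complex.I) + (Real.pi * t * Complex.I) by ring,
      Complex.exp_add]
    have h1 : Complex.exp (-(↑Real.pi * ↑t) * Complex.I) * Complex.exp (↑Real.pi * ↑t * Complex.I) = 1 := by
      rw [← Complex.exp_add]
      simp
    linear_combination (-1 : ℂ) * h1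
  rw [h]
  rw [show 2 * (Real.cos (Real.pi * t) : ℂ) * Complex.exp ((Real.pi * t : ℝ) * Complex.I) / 2
    = (Real.cos (Real.pi * t) : ℂ) * Complex.exp ((Real.pi * t : ℝ) * Complex.I) by ring]
  rw [norm_mul, Complex.norm_exp_ofReal_mul_I, mul_one]
  exact Complex.norm_real _

lemma norm_one_add_ec_le_one (t : ℝ) : ‖(1 + ec t) / 2‖ ≤ 1 := by
  rw [norm_one_add_ec]
  exact Real.abs_cos_le_one _

lemma norm_one_add_ec_le {t c : ℝ} (hc0 : 0 ≤ c) (ht : c ≤ |t - round t|) :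
    ‖(1 + ec t) / 2‖ ≤ Real.cos (Real.pi * c) := by
  rw [norm_one_add_ec]
  have h1 : |Real.cos (Real.pi * t)| = |Real.cos (Real.pi * (t - round t))| := by
    have : Real.pi * t = Real.pi * (t - round t) + (round t : ℤ) * Real.pi := by
      ring
    conv_lhs => rw [this]
    rw [Real.cos_add_int_mul_pi]
    rw [abs_mul]
    have : |((-1 : ℝ)) ^ (round t : ℤ)| = 1 := by
      rw [abs_zpow]; simp
    rw [this, one_mul]
  rw [h1]
  have h2 : Real.cos (Real.pi * (t - round t)) = Real.cos (Real.pi * |t - round t|) := by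
    rcases abs_choice (t - round t) with h | h
    · rw [h]
    · rw [h, mul_neg, Real.cos_neg]
  rw [h2]
  have h3 : |t - round t| ≤ 1 / 2 := abs_sub_round t
  have hpi := Real.pi_pos
  rw [abs_of_nonneg]
  · apply Real.cos_le_cos_of_nonneg_of_le_pi
    · positivity
    · nlinarith
    · nlinarith
  · apply Real.cos_nonneg_of_neg_pi_div_two_le_of_le
    · nlinarith [abs_nonneg (t - round t)]
    · nlinarith

/-- Distance to the nearest integer is at most the distance to any integer. -/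
lemma nd_le (t : ℝ) (k : ℤ) : |t - round t| ≤ |t - k| := round_le t k

lemma nd_sub_ge (t u : ℝ) : |t - round t| - |u| ≤ |(t - u) - round (t - u)| := by
  have h1 := nd_le t (round (t - u))
  have h2 : |t - (round (t - u) : ℝ)| ≤ |(t - u) - round (t - u)| + |u| := by
    have : t - (round (t - u) : ℝ) = ((t - u) - round (t - u)) + u := by ring
    rw [this]
    exact abs_add_le _ _
  linarith

/-- For irrational `θ` the multiples `θ R ^ j` are infinitely often far from the integers. -/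
lemma exists_far {θ : ℝ} (hθ : Irrational θ) {R : ℕ} (hR : 2 ≤ R) (J : ℕ) :
    ∃ j ≥ J, 1 / (2 * (R : ℝ)) ≤ |θ * (R : ℝ) ^ j - round (θ * (R : ℝ) ^ j)| := by
  by_contra hcon
  push Not at hcon
  have hRpos : (0 : ℝ) < R := by positivity
  have hR2 : (2 : ℝ) ≤ R := by exact_mod_cast hR
  set d : ℕ → ℝ := fun j => θ * (R : ℝ) ^ j - round (θ * (R : ℝ) ^ j) with hd
  have hstep : ∀ j ≥ J, d (j + 1) = R * d j := by
    intro j hj
    have h1 : |d j| < 1 / (2 * (R : ℝ)) := hcon j hj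
    have h2 : θ * (R : ℝ) ^ (j + 1) = ((R : ℤ) * round (θ * (R : ℝ) ^ j) : ℤ) + R * d j := by
      simp only [hd]
      push_cast
      ring
    have h3 : |R * d j| < 1 / 2 := by
      rw [abs_mul, abs_of_pos hRpos]
      calc (R : ℝ) * |d j| < R * (1 / (2 * (R : ℝ))) := by gcongr
        _ = 1 / 2 := by field_simp
    have h4 : round (R * d j) = 0 := by
      rw [round_eq_zero_iff]
      rw [abs_lt] at h3
      constructor <;> linarith [h3.1, h3.2]
    have h5 : round (θ * (R : ℝ) ^ (j + 1)) = (R : ℤ) * round (θ * (R : ℝ) ^ j) := by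
      rw [h2, round_intCast_add, h4, add_zero]
    simp only [hd]
    rw [h5]
    push_cast
    ring
  have hpow : ∀ i, d (J + i) = (R : ℝ) ^ i * d J := by
    intro i
    induction i with
    | zero => simp
    | succ i ih =>
      rw [← Nat.add_assoc, hstep (J + i) (by omega), ih]
      ring
  have hdJ : d J = 0 := by
    by_contra hne
    have hpos : 0 < |d J| := abs_pos.mpr hne
    obtain ⟨i, hi⟩ := pow_unbounded_of_one_lt (1 / |d J|) (by linarith : (1 : ℝ) < R)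
    have h1 : |d (J + i)| < 1 / (2 * (R : ℝ)) := hcon (J + i) (by omega)
    rw [hpow, abs_mul, abs_of_pos (by positivity : (0 : ℝ) < (R : ℝ) ^ i)] at h1
    have h2 : 1 < (R : ℝ) ^ i * |d J| := by
      rwa [div_lt_iff₀ hpos] at hi
    have h3 : 1 / (2 * (R : ℝ)) ≤ 1 := by
      rw [div_le_one (by positivity)]
      linarith
    linarith
  have hRJ : ((R : ℝ) ^ J) ≠ 0 := by positivity
  have : θ * (R : ℝ) ^ J = (round (θ * (R : ℝ) ^ J) : ℤ) := by
    have : θ * (R : ℝ) ^ J - round (θ * (R : ℝ) ^ J) = 0 := hdJ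
    linarith
  have hirr : Irrational (θ * ((R ^ J : ℕ) : ℝ)) := by
    apply Irrational.mul_natCast hθ
    positivity
  apply hirr
  refine ⟨(round (θ * (R : ℝ) ^ J) : ℤ), ?_⟩
  push_cast
  rw [← this]

/-- There are arbitrarily many far indices below a suitable bound. -/
lemma exists_many_far {θ : ℝ} (hθ : Irrational θ) {R : ℕ} (hR : 2 ≤ R) (Q : ℕ) :
    ∃ G : ℕ, Q ≤ ((Finset.range G).filter
      (fun j => 1 / (2 * (R : ℝ)) ≤ |θ * (R : ℝ) ^ j - round (θ * (R : ℝ) ^ j)|)).card := by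
  induction Q with
  | zero => exact ⟨0, by simp⟩
  | succ Q ih =>
    obtain ⟨G, hG⟩ := ih
    obtain ⟨j, hj, hfar⟩ := exists_far hθ hR G
    refine ⟨j + 1, ?_⟩
    calc Q + 1 ≤ ((Finset.range G).filter
        (fun j => 1 / (2 * (R : ℝ)) ≤ |θ * (R : ℝ) ^ j - round (θ * (R : ℝ) ^ j)|)).card + 1 := by omega
      _ = (insert j ((Finset.range G).filter
        (fun j => 1 / (2 * (R : ℝ)) ≤ |θ * (R : ℝ) ^ j - round (θ * (R : ℝ) ^ j)|))).card := by
          rw [Finset.card_insert_of_notMem]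
          simp only [Finset.mem_filter, Finset.mem_range, not_and]
          intro h; omega
      _ ≤ _ := by
          apply Finset.card_le_card
          intro i hi
          rw [Finset.mem_insert] at hi
          rw [Finset.mem_filter, Finset.mem_range]
          rcases hi with rfl | hi
          · exact ⟨by omega, hfar⟩
          · rw [Finset.mem_filter, Finset.mem_range] at hi
            exact ⟨by omega, hi.2⟩

lemma exists_many_far_mono {θ : ℝ} {R : ℕ} {Q G G' : ℕ} (hGG : G ≤ G')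
    (h : Q ≤ ((Finset.range G).filter
      (fun j => 1 / (2 * (R : ℝ)) ≤ |θ * (R : ℝ) ^ j - round (θ * (R : ℝ) ^ j)|)).card) :
    Q ≤ ((Finset.range G').filter
      (fun j => 1 / (2 * (R : ℝ)) ≤ |θ * (R : ℝ) ^ j - round (θ * (R : ℝ) ^ j)|)).card := by
  refine le_trans h (Finset.card_le_card ?_)
  apply Finset.filter_subset_filter
  exact Finset.range_subset_range.mpr hGG

/-- Averaging a character over all subsets of `P`. -/
lemma norm_sum_powerset_ec (P : Finset ℕ) (w : ℕ → ℝ) (θ y₀ : ℝ) :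
    ‖∑ A ∈ P.powerset, ec (θ * (y₀ + ∑ i ∈ A, w i))‖
      = 2 ^ P.card * ∏ i ∈ P, ‖(1 + ec (θ * w i)) / 2‖ := by
  have h1 : ∀ A : Finset ℕ, ec (θ * (y₀ + ∑ i ∈ A, w i))
      = ec (θ * y₀) * ∏ i ∈ A, ec (θ * w i) := by
    intro A
    rw [mul_add, ec_add, Finset.mul_sum, ec_sum]
  simp_rw [h1]
  rw [← Finset.mul_sum, ← Finset.prod_one_add, norm_mul, norm_ec, one_mul, norm_prod]
  rw [← Finset.prod_const, ← Finset.prod_mul_distrib]
  apply Finset.prod_congr rfl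
  intro i _
  rw [norm_div]
  simp
  ring

/-- Second moment bound for exponential sums. -/
lemma second_moment (P : Finset ℕ) (w : ℕ → ℝ) (g : ℕ → ℝ) (y₀ : ℝ) (N : ℕ) :
    ∑ A ∈ P.powerset, ‖∑ n ∈ Finset.range N, ec (g n * (y₀ + ∑ i ∈ A, w i))‖ ^ 2
      ≤ ∑ n ∈ Finset.range N, ∑ n' ∈ Finset.range N,
        2 ^ P.card * ∏ i ∈ P, ‖(1 + ec ((g n - g n') * w i)) / 2‖ := by
  have key : ((∑ A ∈ P.powerset,
      ‖∑ n ∈ Finset.range N, ec (g n * (y₀ + ∑ i ∈ A, w i))‖ ^ 2 : ℝ) : ℂ)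
      = ∑ n ∈ Finset.range N, ∑ n' ∈ Finset.range N,
        ∑ A ∈ P.powerset, ec ((g n - g n') * (y₀ + ∑ i ∈ A, w i)) := by
    push_cast
    have h1 : ∀ A ∈ P.powerset,
        ((‖∑ n ∈ Finset.range N, ec (g n * (y₀ + ∑ i ∈ A, w i))‖ : ℂ)) ^ 2
        = ∑ n ∈ Finset.range N, ∑ n' ∈ Finset.range N,
          ec ((g n - g n') * (y₀ + ∑ i ∈ A, w i)) := by
      intro A _
      rw [← Complex.mul_conj', map_sum, Finset.sum_mul_sum]
      apply Finset.sum_congr rfl
      intro n _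
      apply Finset.sum_congr rfl
      intro n' _
      rw [← ec_neg, ← ec_add]
      congr 1
      ring
    rw [Finset.sum_congr rfl h1, Finset.sum_comm]
    apply Finset.sum_congr rfl
    intro n _
    rw [Finset.sum_comm]
  have hnonneg : 0 ≤ ∑ A ∈ P.powerset,
      ‖∑ n ∈ Finset.range N, ec (g n * (y₀ + ∑ i ∈ A, w i))‖ ^ 2 := by positivity
  calc ∑ A ∈ P.powerset, ‖∑ n ∈ Finset.range N, ec (g n * (y₀ + ∑ i ∈ A, w i))‖ ^ 2
      = ‖((∑ A ∈ P.powerset,
      ‖∑ n ∈ Finset.range N, ec (g n * (y₀ + ∑ i ∈ A, w i))‖ ^ 2 : ℝ) : ℂ)‖ := by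
        rw [Complex.norm_real, Real.norm_of_nonneg hnonneg]
    _ = ‖∑ n ∈ Finset.range N, ∑ n' ∈ Finset.range N,
        ∑ A ∈ P.powerset, ec ((g n - g n') * (y₀ + ∑ i ∈ A, w i))‖ := by rw [key]
    _ ≤ ∑ n ∈ Finset.range N, ∑ n' ∈ Finset.range N,
        ‖∑ A ∈ P.powerset, ec ((g n - g n') * (y₀ + ∑ i ∈ A, w i))‖ := by
        refine (norm_sum_le _ _).trans ?_
        apply Finset.sum_le_sum
        intro n _
        exact norm_sum_le _ _
    _ = _ := by
        apply Finset.sum_congr rfl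
        intro n _
        apply Finset.sum_congr rfl
        intro n' _
        exact norm_sum_powerset_ec P w _ y₀

lemma prod_norm_le_one (P : Finset ℕ) (t : ℕ → ℝ) : ∏ i ∈ P, ‖(1 + ec (t i)) / 2‖ ≤ 1 := by
  apply Finset.prod_le_one
  · intro i _; positivity
  · intro i _; exact norm_one_add_ec_le_one _

/-- If at least `Q` of the frequencies are `c`-far from the integers, the product is small. -/
lemma prod_norm_le_pow (P : Finset ℕ) (t : ℕ → ℝ) {c : ℝ} (hc0 : 0 ≤ c) (hc1 : c ≤ 1 / 2)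
    {Q : ℕ} (T : Finset ℕ) (hT : T ⊆ P) (hcard : Q ≤ T.card)
    (hfar : ∀ i ∈ T, c ≤ |t i - round (t i)|) :
    ∏ i ∈ P, ‖(1 + ec (t i)) / 2‖ ≤ Real.cos (Real.pi * c) ^ Q := by
  have hpi := Real.pi_pos
  have hcos0 : 0 ≤ Real.cos (Real.pi * c) := by
    apply Real.cos_nonneg_of_neg_pi_div_two_le_of_le
    · nlinarith
    · nlinarith
  have hcos1 : Real.cos (Real.pi * c) ≤ 1 := Real.cos_le_one _
  rw [← Finset.prod_sdiff hT]
  calc (∏ x ∈ P \ T, ‖(1 + ec (t x)) / 2‖) * ∏ x ∈ T, ‖(1 + ec (t x)) / 2‖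
      ≤ 1 * ∏ x ∈ T, Real.cos (Real.pi * c) := by
        apply mul_le_mul
        · exact prod_norm_le_one _ _
        · apply Finset.prod_le_prod
          · intro i _; positivity
          · intro i hi
            exact norm_one_add_ec_le hc0 (hfar i hi)
        · apply Finset.prod_nonneg
          intro i _; positivity
        · norm_num
    _ = Real.cos (Real.pi * c) ^ T.card := by rw [one_mul, Finset.prod_const]
    _ ≤ Real.cos (Real.pi * c) ^ Q := pow_le_pow_of_le_one hcos0 hcos1 hcard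

/-- The weight of the digit with index `i` in base `r`. -/
noncomputable def wt (r : ℕ) (i : ℕ) : ℝ := ((r : ℝ) ^ (i + 1))⁻¹

/-- Positions of the free digits between `N₀` and `N` with spacing `s`. -/
def pos (s N₀ N : ℕ) : Finset ℕ := (Finset.Ico N₀ N).filter (fun i => s ∣ i)

/-- Estimate for a pair of well separated times. -/
lemma pair_bound {r : ℕ} (hr : 2 ≤ r) (b : ℝ) {s : ℕ} (hs : 1 ≤ s) (h : ℤ) (H : ℕ)
    (hH : |(h : ℝ)| ≤ H) {Q G g N₀ N n n' : ℕ}
    (hG : ∀ a < s, Q ≤ ((Finset.range G).filter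
      (fun j => 1 / (2 * ((r ^ s : ℕ) : ℝ)) ≤ |((h : ℝ) * b * (r : ℝ) ^ a) * ((r ^ s : ℕ) : ℝ) ^ j
        - round (((h : ℝ) * b * (r : ℝ) ^ a) * ((r ^ s : ℕ) : ℝ) ^ j)|)).card)
    (hg : (H : ℝ) * |b| * ((r : ℝ) ^ g)⁻¹ ≤ 1 / (4 * ((r ^ s : ℕ) : ℝ)))
    (hnn : n + (N₀ + g + s * G) ≤ n') (hn' : n' < N) :
    ∏ i ∈ pos s N₀ N, ‖(1 + ec (((h : ℝ) * b * (r : ℝ) ^ n' - (h : ℝ) * b * (r : ℝ) ^ n) * wt r i)) / 2‖
      ≤ Real.cos (Real.pi * (1 / (4 * ((r ^ s : ℕ) : ℝ)))) ^ Q := by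
  have hr0 : (0 : ℝ) < r := by positivity
  have hR1 : (1 : ℝ) ≤ ((r ^ s : ℕ) : ℝ) := by
    exact_mod_cast Nat.one_le_pow _ _ (by omega)
  rcases Nat.eq_zero_or_pos Q with hQ | hQ
  · subst hQ
    rw [pow_zero]
    exact prod_norm_le_one _ _
  have hGpos : 1 ≤ G := by
    by_contra hG0
    have : G = 0 := by omega
    have h1 := hG 0 (by omega)
    rw [this] at h1
    simp at h1
    omega
  set a := (n' - 1) % s with ha
  have has : a < s := Nat.mod_lt _ (by omega)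
  set F := (Finset.range G).filter
      (fun j => 1 / (2 * ((r ^ s : ℕ) : ℝ)) ≤ |((h : ℝ) * b * (r : ℝ) ^ a) * ((r ^ s : ℕ) : ℝ) ^ j
        - round (((h : ℝ) * b * (r : ℝ) ^ a) * ((r ^ s : ℕ) : ℝ) ^ j)|) with hF
  have hcardF : Q ≤ F.card := hG a has
  have hsG : s ≤ s * G := Nat.le_mul_of_pos_right s hGpos
  have hn'1 : 1 ≤ n' := by omega
  -- the positions
  have hdiv : s ∣ (n' - 1) - a := Nat.dvd_sub_mod _
  have hju : ∀ j ∈ F, a + s * j + 1 ≤ s * G := by
    intro j hj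
    have hjG : j < G := by
      rw [hF, Finset.mem_filter, Finset.mem_range] at hj
      exact hj.1
    have : s * (j + 1) ≤ s * G := Nat.mul_le_mul_left s hjG
    rw [Nat.mul_add, Nat.mul_one] at this
    omega
  have hinj : Set.InjOn (fun j => n' - 1 - a - s * j) F := by
    intro j hj j' hj' hjj
    have h1 := hju j hj
    have h2 := hju j' hj'
    simp only at hjj
    have h3 : s * j = s * j' := by omega
    exact Nat.eq_of_mul_eq_mul_left (by omega) h3
  apply prod_norm_le_pow (pos s N₀ N) _ (by positivity) (by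
      rw [div_le_div_iff₀ (by positivity) (by norm_num)]
      linarith) (T := F.image (fun j => n' - 1 - a - s * j))
  · intro i hi
    rw [Finset.mem_image] at hi
    obtain ⟨j, hj, rfl⟩ := hi
    have h1 := hju j hj
    unfold pos
    rw [Finset.mem_filter, Finset.mem_Ico]
    refine ⟨⟨by omega, by omega⟩, ?_⟩
    exact Nat.dvd_sub hdiv (Nat.dvd_mul_right s j)
  · rw [Finset.card_image_of_injOn hinj]
    exact hcardF
  · intro i hi
    rw [Finset.mem_image] at hi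
    obtain ⟨j, hj, rfl⟩ := hi
    have h1 := hju j hj
    have hfar : 1 / (2 * ((r ^ s : ℕ) : ℝ)) ≤ |((h : ℝ) * b * (r : ℝ) ^ a) * ((r ^ s : ℕ) : ℝ) ^ j
        - round (((h : ℝ) * b * (r : ℝ) ^ a) * ((r ^ s : ℕ) : ℝ) ^ j)| := by
      rw [hF, Finset.mem_filter] at hj
      exact hj.2
    have hiexp : n' = (n' - 1 - a - s * j + 1) + (a + s * j) := by omega
    set i := n' - 1 - a - s * j with hi
    have hi1 : n + g ≤ i + 1 := by omega
    have e1 : ((h : ℝ) * b * (r : ℝ) ^ n' - (h : ℝ) * b * (r : ℝ) ^ n) * wt r i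
        = ((h : ℝ) * b * (r : ℝ) ^ a) * ((r ^ s : ℕ) : ℝ) ^ j
          - (h : ℝ) * b * (r : ℝ) ^ n * wt r i := by
      rw [sub_mul]
      congr 1
      unfold wt
      rw [hiexp]
      push_cast
      rw [pow_add, pow_add, ← pow_mul]
      field_simp
      rw [pow_add]
      ring
    rw [e1]
    refine le_trans ?_ (nd_sub_ge _ _)
    have e2 : |(h : ℝ) * b * (r : ℝ) ^ n * wt r i| ≤ 1 / (4 * ((r ^ s : ℕ) : ℝ)) := by
      refine le_trans ?_ hg
      unfold wt
      rw [abs_mul, abs_mul, abs_mul, abs_of_pos (by positivity : (0 : ℝ) < (r : ℝ) ^ n),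
        abs_of_pos (by positivity : (0 : ℝ) < ((r : ℝ) ^ (i + 1))⁻¹)]
      have e3 : (r : ℝ) ^ n * ((r : ℝ) ^ (i + 1))⁻¹ ≤ ((r : ℝ) ^ g)⁻¹ := by
        rw [← div_eq_mul_inv, div_le_iff₀ (by positivity), ← div_eq_inv_mul,
          le_div_iff₀ (by positivity), ← pow_add]
        apply pow_le_pow_right₀ _ hi1
        exact_mod_cast (by omega : 1 ≤ r)
      calc |(h : ℝ)| * |b| * (r : ℝ) ^ n * ((r : ℝ) ^ (i + 1))⁻¹
          = |(h : ℝ)| * |b| * ((r : ℝ) ^ n * ((r : ℝ) ^ (i + 1))⁻¹) := by ring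
        _ ≤ (H : ℝ) * |b| * ((r : ℝ) ^ g)⁻¹ := by gcongr
    have e4 : 1 / (2 * ((r ^ s : ℕ) : ℝ)) = 1 / (4 * ((r ^ s : ℕ) : ℝ)) + 1 / (4 * ((r ^ s : ℕ) : ℝ)) := by
      field_simp
      norm_num
    linarith

lemma card_near (N K n : ℕ) :
    ((Finset.range N).filter (fun n' => n' < n + K ∧ n < n' + K)).card ≤ 2 * K := by
  calc ((Finset.range N).filter (fun n' => n' < n + K ∧ n < n' + K)).card
      ≤ (Finset.Ico (n + 1 - K) (n + K)).card := by
        apply Finset.card_le_card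
        intro i hi
        rw [Finset.mem_filter] at hi
        rw [Finset.mem_Ico]
        omega
    _ ≤ 2 * K := by
        rw [Nat.card_Ico]
        omega

/-- Sum over all pairs of times. -/
lemma sum_pairs {N K : ℕ} {κ : ℕ → ℕ → ℝ} {δ : ℝ} (hδ : 0 ≤ δ)
    (h1 : ∀ n n', κ n n' ≤ 1)
    (h2 : ∀ n n', n < N → n' < N → n + K ≤ n' → κ n n' ≤ δ)
    (h3 : ∀ n n', n < N → n' < N → n' + K ≤ n → κ n n' ≤ δ) :
    ∑ n ∈ Finset.range N, ∑ n' ∈ Finset.range N, κ n n' ≤ (N : ℝ) ^ 2 * δ + 2 * K * N := by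
  have hb : ∀ n ∈ Finset.range N, ∀ n' ∈ Finset.range N,
      κ n n' ≤ δ + (if n' < n + K ∧ n < n' + K then (1 : ℝ) else 0) := by
    intro n hn n' hn'
    rw [Finset.mem_range] at hn hn'
    by_cases hc : n' < n + K ∧ n < n' + K
    · rw [if_pos hc]
      have := h1 n n'
      linarith
    · rw [if_neg hc, add_zero]
      by_cases hc1 : n' < n + K
      · apply h3 n n' hn hn'
        by_contra hc2
        exact hc ⟨hc1, by omega⟩
      · exact h2 n n' hn hn' (by omega)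
  calc ∑ n ∈ Finset.range N, ∑ n' ∈ Finset.range N, κ n n'
      ≤ ∑ n ∈ Finset.range N, ∑ n' ∈ Finset.range N,
          (δ + (if n' < n + K ∧ n < n' + K then (1 : ℝ) else 0)) :=
        Finset.sum_le_sum (fun n hn => Finset.sum_le_sum (fun n' hn' => hb n hn n' hn'))
    _ ≤ ∑ n ∈ Finset.range N, (N * δ + 2 * K) := by
        apply Finset.sum_le_sum
        intro n _
        rw [Finset.sum_add_distrib, Finset.sum_const, Finset.card_range, nsmul_eq_mul]
        rw [← Finset.sum_filter, Finset.sum_const, nsmul_eq_mul, mul_one]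
        have := card_near N K n
        have h' : (((Finset.range N).filter (fun n' => n' < n + K ∧ n < n' + K)).card : ℝ) ≤ 2 * K := by
          exact_mod_cast this
        linarith
    _ = _ := by
        rw [Finset.sum_const, Finset.card_range, nsmul_eq_mul]
        ring

lemma nd_neg (t : ℝ) : ‖(1 + ec (-t)) / 2‖ = ‖(1 + ec t) / 2‖ := by
  rw [norm_one_add_ec, norm_one_add_ec, mul_neg, Real.cos_neg]

/-- Uniform choice of `G`. -/
lemma exists_uniform_G {r : ℕ} (hr : 2 ≤ r) {b : ℝ} (hb : Irrational b) {s : ℕ} (hs : 1 ≤ s)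
    (H Q : ℕ) : ∃ G : ℕ, ∀ h : ℤ, h ≠ 0 → |(h : ℝ)| ≤ H → ∀ a < s,
      Q ≤ ((Finset.range G).filter
      (fun j => 1 / (2 * ((r ^ s : ℕ) : ℝ)) ≤ |((h : ℝ) * b * (r : ℝ) ^ a) * ((r ^ s : ℕ) : ℝ) ^ j
        - round (((h : ℝ) * b * (r : ℝ) ^ a) * ((r ^ s : ℕ) : ℝ) ^ j)|)).card := by
  have hR : 2 ≤ r ^ s := by
    calc 2 ≤ r := hr
      _ = r ^ 1 := (pow_one r).symm
      _ ≤ r ^ s := Nat.pow_le_pow_right (by omega) hs
  have h1 : ∀ x : ℤ × ℕ, ∃ G : ℕ, x.1 ≠ 0 → Q ≤ ((Finset.range G).filter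
      (fun j => 1 / (2 * ((r ^ s : ℕ) : ℝ)) ≤ |((x.1 : ℝ) * b * (r : ℝ) ^ x.2) * ((r ^ s : ℕ) : ℝ) ^ j
        - round (((x.1 : ℝ) * b * (r : ℝ) ^ x.2) * ((r ^ s : ℕ) : ℝ) ^ j)|)).card := by
    intro x
    by_cases hx : x.1 = 0
    · exact ⟨0, fun h => absurd hx h⟩
    · have hirr : Irrational ((x.1 : ℝ) * b * (r : ℝ) ^ x.2) := by
        have h2 : Irrational ((x.1 : ℝ) * b) := Irrational.intCast_mul hb hx
        have h3 : Irrational ((x.1 : ℝ) * b * ((r ^ x.2 : ℕ) : ℝ)) := by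
          apply Irrational.mul_natCast h2
          positivity
        rwa [Nat.cast_pow] at h3
      obtain ⟨G, hG⟩ := exists_many_far hirr hR Q
      exact ⟨G, fun _ => hG⟩
  choose Gf hGf using h1
  refine ⟨∑ x ∈ (Finset.Icc (-(H : ℤ)) H) ×ˢ (Finset.range s), Gf x, ?_⟩
  intro h hh hH a ha
  have hmem : (h, a) ∈ (Finset.Icc (-(H : ℤ)) H) ×ˢ (Finset.range s) := by
    rw [Finset.mem_product, Finset.mem_Icc, Finset.mem_range]
    refine ⟨?_, ha⟩
    have : |h| ≤ (H : ℤ) := by exact_mod_cast hH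
    exact abs_le.mp this
  refine exists_many_far_mono ?_ (hGf (h, a) hh)
  exact Finset.single_le_sum (f := Gf) (fun _ _ => Nat.zero_le _) hmem

/-- The main step: one can choose a sparse set of digits so that all low frequency exponential
sums of `b * y` up to a late time are small. -/
lemma step {r : ℕ} (hr : 2 ≤ r) {b : ℝ} (hb : Irrational b) {s : ℕ} (hs : 1 ≤ s)
    (H : ℕ) {η : ℝ} (hη : 0 < η) (N₀ : ℕ) (y₀ : ℝ) :
    ∃ N > N₀, ∃ A ⊆ pos s N₀ N, ∀ h : ℤ, h ≠ 0 → |(h : ℝ)| ≤ H →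
      ‖∑ n ∈ Finset.range N, ec (((h : ℝ) * b * (r : ℝ) ^ n) * (y₀ + ∑ i ∈ A, wt r i))‖ ≤ η * N := by
  have hr0 : (0 : ℝ) < r := by positivity
  have hr1 : (1 : ℝ) < r := by exact_mod_cast (by omega : 1 < r)
  have hR1 : (1 : ℝ) ≤ ((r ^ s : ℕ) : ℝ) := by
    exact_mod_cast Nat.one_le_pow _ _ (by omega)
  set Hs : Finset ℤ := (Finset.Icc (-(H : ℤ)) H).filter (fun h => h ≠ 0) with hHs
  have hmemHs : ∀ h : ℤ, h ∈ Hs ↔ h ≠ 0 ∧ |(h : ℝ)| ≤ H := by
    intro h
    rw [hHs, Finset.mem_filter, Finset.mem_Icc, ← abs_le]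
    constructor
    · rintro ⟨h1, h2⟩
      exact ⟨h2, by exact_mod_cast h1⟩
    · rintro ⟨h1, h2⟩
      exact ⟨by exact_mod_cast h2, h1⟩
  set c : ℝ := 1 / (4 * ((r ^ s : ℕ) : ℝ)) with hc
  have hc0 : 0 < c := by positivity
  have hc1 : c ≤ 1 / 4 := by
    rw [hc, div_le_div_iff₀ (by positivity) (by norm_num)]
    linarith
  set ρ : ℝ := Real.cos (Real.pi * c) with hρ
  have hpi := Real.pi_pos
  have hρ0 : 0 ≤ ρ := by
    apply Real.cos_nonneg_of_neg_pi_div_two_le_of_le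
    · nlinarith
    · nlinarith
  have hρ1 : ρ < 1 := by
    rw [hρ, ← Real.cos_zero]
    apply Real.cos_lt_cos_of_nonneg_of_le_pi (le_refl 0)
    · nlinarith
    · positivity
  -- choose Q
  obtain ⟨Q, hQ⟩ : ∃ Q : ℕ, (Hs.card : ℝ) * ρ ^ Q ≤ η ^ 2 / 2 := by
    have ht : Filter.Tendsto (fun Q : ℕ => (Hs.card : ℝ) * ρ ^ Q) Filter.atTop (nhds ((Hs.card : ℝ) * 0)) :=
      (tendsto_pow_atTop_nhds_zero_of_lt_one hρ0 hρ1).const_mul _
    rw [mul_zero] at ht
    have := ht.eventually (ge_mem_nhds (by positivity : (0 : ℝ) < η ^ 2 / 2))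
    obtain ⟨Q, hQ⟩ := this.exists
    exact ⟨Q, hQ⟩
  obtain ⟨G, hG⟩ := exists_uniform_G hr hb hs H Q
  -- choose g
  obtain ⟨g, hg⟩ : ∃ g : ℕ, (H : ℝ) * |b| * ((r : ℝ) ^ g)⁻¹ ≤ c := by
    obtain ⟨g, hg⟩ := pow_unbounded_of_one_lt ((H : ℝ) * |b| / c) hr1
    refine ⟨g, ?_⟩
    rw [← div_eq_mul_inv, div_le_iff₀ (by positivity)]
    rw [div_lt_iff₀ hc0] at hg
    linarith
  set K : ℕ := N₀ + g + s * G with hK
  -- choose N
  obtain ⟨N₁, hN₁⟩ := exists_nat_ge ((Hs.card : ℝ) * (2 * K) / (η ^ 2 / 2))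
  set N : ℕ := max N₁ (N₀ + 1) with hN
  have hNN₀ : N₀ < N := by omega
  have hNpos : (0 : ℝ) < N := by
    have : 0 < N := by omega
    exact_mod_cast this
  have hNbig : (Hs.card : ℝ) * (2 * K) ≤ (η ^ 2 / 2) * N := by
    have h1 : ((Hs.card : ℝ) * (2 * K) / (η ^ 2 / 2)) ≤ N :=
      hN₁.trans (by exact_mod_cast le_max_left _ _)
    rw [div_le_iff₀ (by positivity)] at h1
    linarith
  refine ⟨N, hNN₀, ?_⟩
  -- averaging
  set P := pos s N₀ N with hP
  set W : ℤ → Finset ℕ → ℂ := fun h A =>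
    ∑ n ∈ Finset.range N, ec (((h : ℝ) * b * (r : ℝ) ^ n) * (y₀ + ∑ i ∈ A, wt r i)) with hW
  have hmoment : ∀ h ∈ Hs, ∑ A ∈ P.powerset, ‖W h A‖ ^ 2
      ≤ 2 ^ P.card * ((N : ℝ) ^ 2 * ρ ^ Q + 2 * K * N) := by
    intro h hh
    rw [hmemHs] at hh
    have h1 := second_moment P (wt r) (fun n => (h : ℝ) * b * (r : ℝ) ^ n) y₀ N
    refine h1.trans ?_
    simp_rw [← Finset.mul_sum]
    apply mul_le_mul_of_nonneg_left _ (by positivity)
    apply sum_pairs (by positivity)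
    · intro n n'
      exact prod_norm_le_one _ _
    · intro n n' hn hn' hnn
      have h2 := pair_bound hr b hs h H hh.2 (hG h hh.1 hh.2) hg hnn hn'
      refine le_trans (le_of_eq ?_) h2
      apply Finset.prod_congr rfl
      intro i _
      rw [← nd_neg]
      congr 4
      ring
    · intro n n' hn hn' hnn
      exact pair_bound hr b hs h H hh.2 (hG h hh.1 hh.2) hg hnn hn
  have htotal : ∑ A ∈ P.powerset, ∑ h ∈ Hs, ‖W h A‖ ^ 2
      ≤ ∑ A ∈ P.powerset, (η * N) ^ 2 := by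
    rw [Finset.sum_comm]
    calc ∑ h ∈ Hs, ∑ A ∈ P.powerset, ‖W h A‖ ^ 2
        ≤ ∑ h ∈ Hs, 2 ^ P.card * ((N : ℝ) ^ 2 * ρ ^ Q + 2 * K * N) := Finset.sum_le_sum hmoment
      _ = 2 ^ P.card * ((N : ℝ) ^ 2 * (Hs.card * ρ ^ Q) + (Hs.card * (2 * K)) * N) := by
          rw [Finset.sum_const, nsmul_eq_mul]
          ring
      _ ≤ 2 ^ P.card * ((N : ℝ) ^ 2 * (η ^ 2 / 2) + ((η ^ 2 / 2) * N) * N) := by
          gcongr
      _ = ∑ A ∈ P.powerset, (η * N) ^ 2 := by
          rw [Finset.sum_const, Finset.card_powerset, nsmul_eq_mul]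
          push_cast
          ring
  obtain ⟨A, hA, hAle⟩ := Finset.exists_le_of_sum_le (Finset.powerset_nonempty P) htotal
  refine ⟨A, Finset.mem_powerset.mp hA, ?_⟩
  intro h hh hH
  have hmem : h ∈ Hs := (hmemHs h).mpr ⟨hh, hH⟩
  have h1 : ‖W h A‖ ^ 2 ≤ (η * N) ^ 2 :=
    (Finset.single_le_sum (f := fun h => ‖W h A‖ ^ 2) (fun _ _ => by positivity) hmem).trans hAle
  exact (abs_le_of_sq_le_sq' h1 (by positivity)).2

end Pool.Agent.Lib.MP_f44585_an
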